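import Pool.Agent.Y80.KI.JordFin
import Pool.Agent.Y80.KI.Comp

set_option autoImplicit false

/-! Homology of the Tits-Allison-Gao Lie algebra of the free Jordan algebra on a space `V` of any
dimension `d ≥ 2`. If the total multiplicity of the trivial and of the adjoint module in the
spaces `H_p`, `p ≥ 2`, were finite, the Euler characteristic would give a functional equation for
the graded dimensions of `Jord(k^2)`, which are `(2 ^ n + 2 ^ ⌈n/2⌉) / 2` by the theorem of
Shirshov and Cohn, with polynomial right hand sides. It is refuted by analytic continuation of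
both sides past the pole `t = 1/2` and by the asymptotics of the two integrals over the torus on
the two sides of the pole. -/

namespace Pool.Agent.Results.MP_a804c2_al.InfiniteMultiplicity

open Pool.Agent.Y80.KM Pool.Agent.Y80.KI

universe u

/-- There is a free Jordan algebra on `d` generators over `k`. -/
def FreeJordExists (k : Type u) [Field k] (d : ℕ) : Prop :=
  ∃ (A : Type u) (_ : NonUnitalNonAssocRing A) (_ : Module k A) (_ : IsScalarTower k A A)
    (_ : SMulCommClass k A A) (x : Fin d → A), IsFreeJord k x

/-- The Lie algebra `TAG(J) = sl_2 ⊗ J ⊕ B(J)` exists, with its action of `sl_2`. -/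
def TAGExists (k J : Type u) [Field k] [NonUnitalNonAssocRing J] [Module k J] : Prop :=
  ∃ (L : Type u) (_ : LieRing L) (_ : LieAlgebra k L) (s : Sl 2 k →ₗ[k] J →ₗ[k] L)
    (w : BSp k J →ₗ[k] L) (E : Sl 2 k → L →ₗ[k] L), IsTAG s w ∧ IsSlAct s w E

/-- Let `k` be any field of characteristic zero, `dim V = d ≥ 2`, `J = Jord(V)` the free Jordan
algebra (which exists) and `L = TAG(J) = sl_2 ⊗ J ⊕ B(J)` (which exists), with the action `E` of
`sl_2`. For some `p ≥ 2` the `sl_2`-module `H_p(L, k)` contains a trivial or an adjoint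
submodule. Moreover the total multiplicity of these two modules in all the spaces `H_p(L, k)`,
`p ≥ 2`, is infinite: either for infinitely many `p` there is such a submodule in `H_p(L, k)`, or
for some `p ≥ 2` one of the spaces `H_p(L, k)^{sl_2}` and `Hom_{sl_2}(sl_2, H_p(L, k))` is
infinite-dimensional. -/
theorem result (k : Type u) [Field k] [CharZero k] (d : ℕ) (hd : 2 ≤ d) :
    FreeJordExists k d ∧
    ∀ (J : Type u) [NonUnitalNonAssocRing J] [Module k J] [IsScalarTower k J J]
      [SMulCommClass k J J] (x : Fin d → J), IsFreeJord k x → TAGExists k J ∧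
      ∀ (L : Type u) [LieRing L] [LieAlgebra k L] (s : Sl 2 k →ₗ[k] J →ₗ[k] L)
        (w : BSp k J →ₗ[k] L) (E : Sl 2 k → L →ₗ[k] L), IsTAG s w → ∀ h : IsSlAct s w E,
      (∃ p, 2 ≤ p ∧ HasH E h.der p) ∧ ¬ FinH E h.der :=
  ⟨⟨FreeJord k d, inferInstance, inferInstance, inferInstance, inferInstance, _,
    Pool.Agent.Y681.KM.freeJord_isFree k d⟩,
    fun _ _ _ _ _ _ hx => ⟨exists_tag hx.1, fun _ _ _ _ _ E hL h =>
      have h1 : ¬ FinH E h.der := fun hf => jord_inf hd hx hL h (finH_prop hf)
      ⟨exists_hasH h1, h1⟩⟩⟩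

end Pool.Agent.Results.MP_a804c2_al.InfiniteMultiplicity
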